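import Mathlib

/-!
# Generalized `3x+1` maps: definitions (MP_127ef0_nt)
-/

namespace Pool.Agent.H9.Rec

/-- The map `U(m, d, R)` with `R = {r 1, ..., r (d - 1)}`, `r i ≡ i` modulo `d`. -/
def U (m d : ℤ) (r : ℤ → ℤ) (n : ℤ) : ℤ :=
  if d ∣ n then n / d else (m * n - r (m * n % d)) / d

/-- `U(m, d, R)` is in the class `G`. -/
structure InG (m d : ℤ) (r : ℤ → ℤ) : Prop where
  two : 2 ≤ d
  one : 1 ≤ m
  cop : IsCoprime m d
  rep : ∀ i, 1 ≤ i → i ≤ d - 1 → r i ≡ i [ZMOD d]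

/-- The set `R` of representatives. -/
def reps (d : ℤ) (r : ℤ → ℤ) : Set ℤ := r '' Set.Icc 1 (d - 1)

end Pool.Agent.H9.Rec
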