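import Pool.Agent.H9.Rec.Main

/-!
# The explicit family: `d` odd, `m` large
-/

namespace Pool.Agent.H9.Rec

open Finset

/-- The representatives: `m - d + j h` for `|j| < e`, and `i` for the other classes. -/
noncomputable def rr (m d h e : ℤ) (i : ℤ) : ℤ := by
  classical
  exact if hh : ∃ j : ℤ, |j| < e ∧ (m - d) + j * h ≡ i [ZMOD d] then
    (m - d) + Classical.choose hh * h else i

theorem rr_inG {m d h e : ℤ} (hd : 2 ≤ d) (hm : 1 ≤ m) (hco : IsCoprime m d) :
    InG m d (rr m d h e) where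
  two := hd
  one := hm
  cop := hco
  rep := by
    intro i _ _
    unfold rr
    split_ifs with hh
    · exact (Classical.choose_spec hh).2
    · rfl

theorem rr_mem {m e : ℤ} (hco : IsCoprime m (2 * e + 1)) {h : ℤ}
    (hh : h ≡ 2 * m [ZMOD (2 * e + 1)]) {j : ℤ} (hj : |j| < e) :
    (m - (2 * e + 1)) + j * h ∈ reps (2 * e + 1) (rr m (2 * e + 1) h e) := by
  obtain ⟨d, hd⟩ : ∃ d, d = 2 * e + 1 := ⟨_, rfl⟩
  rw [← hd] at hco hh ⊢
  rw [abs_lt] at hj
  have h2d : IsCoprime (2 : ℤ) d := ⟨-e, 1, by rw [hd]; ring⟩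
  have h2m : IsCoprime (2 * m) d := h2d.mul_left hco
  obtain ⟨q, hq⟩ := hh.symm.dvd
  have hhd : IsCoprime h d := by
    have h1 : h = 2 * m + d * q := by linarith
    rw [h1]
    exact h2m.add_mul_left_left q
  have hne : ¬ d ∣ (m - d) + j * h := by
    intro h1
    have h2 : (m - d) + j * h = m * (1 + 2 * j) + d * (j * q - 1) := by
      have h3 : h = 2 * m + d * q := by linarith
      rw [h3]
      ring
    rw [h2] at h1
    have h4 : d ∣ m * (1 + 2 * j) := (dvd_add_left (dvd_mul_right _ _)).1 h1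
    have h5 : d ∣ 1 + 2 * j := hco.symm.dvd_of_dvd_mul_left h4
    have h6 : 1 + 2 * j = 0 := Int.eq_zero_of_abs_lt_dvd h5 (by
      rw [abs_lt]
      constructor <;> linarith)
    omega
  obtain ⟨i, hi⟩ : ∃ i, i = ((m - d) + j * h) % d := ⟨_, rfl⟩
  have hi0 : 0 ≤ i := hi ▸ Int.emod_nonneg _ (by omega)
  have hi1 : i < d := hi ▸ Int.emod_lt_of_pos _ (by omega)
  have hi2 : i ≠ 0 := fun h6 => hne (Int.dvd_of_emod_eq_zero (hi ▸ h6))
  refine ⟨i, ⟨by omega, by omega⟩, ?_⟩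
  have hmod : (m - d) + j * h ≡ i [ZMOD d] := by
    rw [hi]
    exact (Int.mod_modEq _ _).symm
  have hex : ∃ j : ℤ, |j| < e ∧ (m - d) + j * h ≡ i [ZMOD d] := ⟨j, abs_lt.2 hj, hmod⟩
  unfold rr
  rw [dif_pos hex]
  obtain ⟨hc1, hc2⟩ := Classical.choose_spec hex
  rw [abs_lt] at hc1
  have h7 : d ∣ (Classical.choose hex - j) * h := by
    have h8 := (hc2.trans hmod.symm).symm.dvd
    have h9 : (m - d) + Classical.choose hex * h - ((m - d) + j * h) =
        (Classical.choose hex - j) * h := by ring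
    rwa [h9] at h8
  have h8 : d ∣ Classical.choose hex - j := hhd.symm.dvd_of_dvd_mul_right h7
  have h9 : Classical.choose hex - j = 0 := Int.eq_zero_of_abs_lt_dvd h8 (by
    rw [abs_lt]
    constructor <;> linarith)
  have h10 : Classical.choose hex = j := by linarith
  rw [h10]

/-- The hypotheses of the theorem are satisfiable with `|A| = (d - 1) / 2`. -/
theorem family_data {m d : ℤ} (hodd : Odd d) (hd5 : 5 ≤ d) (hmd : d ^ 2 < m)
    (hco : IsCoprime m d) :
    ∃ (r : ℤ → ℤ) (A : Finset ℤ) (B : ℤ), InG m d r ∧ 2 * (A.card : ℤ) + 1 = d ∧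
      (∀ a ∈ A, ∀ b ∈ A, (m - d) * 1 + (a - b) ∈ reps d r) ∧
      (∀ a ∈ A, ∀ b ∈ A, a - b ≤ B) ∧ 2 * B ≤ m - d := by
  obtain ⟨e, he⟩ := hodd
  have he2 : 2 ≤ e := by omega
  obtain ⟨E, hE⟩ : ∃ E : ℕ, (E : ℤ) = e := ⟨e.toNat, Int.toNat_of_nonneg (by omega)⟩
  obtain ⟨h, hh⟩ : ∃ h, h = 2 * m % d := ⟨_, rfl⟩
  have hh0 : 0 ≤ h := hh ▸ Int.emod_nonneg _ (by omega)
  have hh1 : h < d := hh ▸ Int.emod_lt_of_pos _ (by omega)
  have h2d : IsCoprime (2 : ℤ) d := ⟨-e, 1, by rw [he]; ring⟩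
  have h2m : IsCoprime (2 * m) d := h2d.mul_left hco
  have hh2 : h ≠ 0 := by
    intro h1
    have h2 : d ∣ 2 * m := Int.dvd_of_emod_eq_zero (hh ▸ h1)
    have h3 := h2m.symm.isUnit_of_dvd' (dvd_refl d) h2
    rw [Int.isUnit_iff] at h3
    omega
  have hmod : h ≡ 2 * m [ZMOD d] := by
    rw [hh]
    exact Int.mod_modEq _ _
  have hm1 : 1 ≤ m := by nlinarith
  have hG : InG m d (rr m d h e) := rr_inG (by omega) hm1 hco
  have hmem : ∀ j : ℤ, |j| < e → (m - d) + j * h ∈ reps d (rr m d h e) := by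
    intro j hj
    rw [he] at hco hmod ⊢
    exact rr_mem hco hmod hj
  have hinj : Function.Injective fun j : ℕ => (j : ℤ) * h := by
    intro a b hab
    have := mul_right_cancel₀ hh2 hab
    exact_mod_cast this
  refine ⟨rr m d h e, (Finset.range E).image fun j : ℕ => (j : ℤ) * h, (e - 1) * h, hG, ?_, ?_,
    ?_, ?_⟩
  · rw [Finset.card_image_of_injective _ hinj, Finset.card_range, hE, he]
  · intro a ha b hb
    rw [Finset.mem_image] at ha hb
    obtain ⟨i, hi, rfl⟩ := ha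
    obtain ⟨j, hj, rfl⟩ := hb
    rw [Finset.mem_range] at hi hj
    have h1 := hmem ((i : ℤ) - j) (by
      rw [abs_lt]
      constructor <;> omega)
    have h2 : (m - d) * 1 + ((i : ℤ) * h - (j : ℤ) * h) = (m - d) + ((i : ℤ) - j) * h := by ring
    rw [h2]
    exact h1
  · intro a ha b hb
    rw [Finset.mem_image] at ha hb
    obtain ⟨i, hi, rfl⟩ := ha
    obtain ⟨j, hj, rfl⟩ := hb
    rw [Finset.mem_range] at hi hj
    have h1 : (i : ℤ) - j ≤ e - 1 := by omega
    have h2 := mul_le_mul_of_nonneg_right h1 hh0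
    linarith
  · have h1 : (e - 1) * h ≤ (e - 1) * (2 * e) := mul_le_mul_of_nonneg_left (by omega) (by omega)
    rw [he] at hmd ⊢
    nlinarith

end Pool.Agent.H9.Rec
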