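import Pool.Agent.H9.Rec.Pig

/-!
# The real form and the infinite form
-/

namespace Pool.Agent.H9.Rec

open Finset

variable {m d : ℤ} {r : ℤ → ℤ}

/-- There are fewer than `d` letters. -/
theorem card_lt (h : InG m d r) {c : ℤ} {A : Finset ℤ}
    (hAr : ∀ a ∈ A, ∀ b ∈ A, (m - d) * c + (a - b) ∈ reps d r) : (A.card : ℤ) < d := by
  have hd := h.two
  rcases A.eq_empty_or_nonempty with rfl | ⟨a0, ha0⟩
  · simp
    omega
  · have h1 : A.card ≤ (Finset.Icc 1 (d - 1)).card := by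
      refine Finset.card_le_card_of_injOn (fun x => ((m - d) * c + (x - a0)) % d) ?_ ?_
      · intro x hx
        have h2 := (mem_reps h (hAr x hx a0 ha0)).1
        have h3 : 0 ≤ ((m - d) * c + (x - a0)) % d := Int.emod_nonneg _ (by omega)
        have h4 : ((m - d) * c + (x - a0)) % d < d := Int.emod_lt_of_pos _ (by omega)
        have h5 : ((m - d) * c + (x - a0)) % d ≠ 0 := fun h6 => h2 (Int.dvd_of_emod_eq_zero h6)
        simp only [Finset.coe_Icc, Set.mem_Icc]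
        constructor <;> omega
      · intro x hx y hy hxy
        have h2 := (mem_reps h (hAr x hx a0 ha0)).2
        have h3 := (mem_reps h (hAr y hy a0 ha0)).2
        simp only at hxy
        rw [hxy] at h2
        rw [h2] at h3
        linarith
    rw [Int.card_Icc] at h1
    omega

/-- The real form. -/
theorem real_form (h : InG m d r) (hm : d < m) {c : ℤ} {A : Finset ℤ} (hA : 2 ≤ A.card)
    (hAr : ∀ a ∈ A, ∀ b ∈ A, (m - d) * c + (a - b) ∈ reps d r) {B : ℤ}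
    (hB : ∀ a ∈ A, ∀ b ∈ A, a - b ≤ B) {K : ℕ} (hK : 1 ≤ K) :
    ∃ x : ℤ, 1 ≤ x ∧ (x : ℝ) ≤ ((d : ℝ) / A.card) ^ K ∧
      (∀ k < K, ¬ d ∣ (U m d r)^[k] (c + x)) ∧
      ∀ k ≤ K, (1 - (B : ℝ) / (m - d)) * ((m : ℝ) / d) ^ k * x ≤
        ((U m d r)^[k] (c + x) : ℝ) - c := by
  obtain ⟨x, hx1, hx2, hx3, hx4⟩ := finite_form h hm hA hAr hB hK
  have hd : (0 : ℝ) < d := by
    have := h.two
    exact_mod_cast (by omega : 0 < d)
  have hmd : (0 : ℝ) < (m : ℝ) - d := by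
    have : (d : ℝ) < m := by exact_mod_cast hm
    linarith
  have hA0 : (0 : ℝ) < A.card := by
    have : 0 < A.card := by omega
    exact_mod_cast this
  obtain ⟨a0, ha0⟩ : A.Nonempty := card_pos.1 (by omega)
  have hB0 : (0 : ℝ) ≤ B := by
    have := hB a0 ha0 a0 ha0
    rw [sub_self] at this
    exact_mod_cast this
  refine ⟨x, hx1, ?_, hx3, fun k hk => ?_⟩
  · rw [div_pow, le_div_iff₀ (by positivity)]
    have h1 : ((A.card : ℝ)) ^ K * x ≤ (d : ℝ) ^ K := by exact_mod_cast hx2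
    linarith
  · have h1 : (m : ℝ) ^ k * ((m - d) * x - B) ≤
        (d : ℝ) ^ k * ((m - d) * (((U m d r)^[k] (c + x) : ℤ) - c) - B) := by
      exact_mod_cast hx4 k hk
    obtain ⟨y, hy⟩ : ∃ y : ℝ, y = (((U m d r)^[k] (c + x) : ℤ) : ℝ) - c := ⟨_, rfl⟩
    rw [← hy] at h1 ⊢
    have hx1' : (1 : ℝ) ≤ x := by exact_mod_cast hx1
    have hdk : (0 : ℝ) < (d : ℝ) ^ k := by positivity
    have hmk : (0 : ℝ) ≤ (m : ℝ) ^ k := by
      have : (0 : ℝ) < m := by linarith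
      positivity
    have h2 : (1 - (B : ℝ) / (m - d)) * ((m : ℝ) / d) ^ k * x =
        (m : ℝ) ^ k * (((m : ℝ) - d - B) * x) / ((d : ℝ) ^ k * (m - d)) := by
      rw [div_pow]
      field_simp
    rw [h2, div_le_iff₀ (by positivity)]
    have h3 : ((m : ℝ) - d - B) * x ≤ (m - d) * x - B := by nlinarith
    calc (m : ℝ) ^ k * (((m : ℝ) - d - B) * x) ≤ (m : ℝ) ^ k * ((m - d) * x - B) :=
          mul_le_mul_of_nonneg_left h3 hmk
      _ ≤ (d : ℝ) ^ k * ((m - d) * y - B) := h1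
      _ ≤ y * ((d : ℝ) ^ k * (m - d)) := by nlinarith [mul_nonneg hdk.le hB0]

/-- The exponent. -/
theorem rpow_bound {ρ q x : ℝ} (hρ : 1 < ρ) (hq : 1 < q) (hx : 1 ≤ x) {K : ℕ} (h : x ≤ q ^ K) :
    x ^ (1 + Real.log ρ / Real.log q) ≤ ρ ^ K * x := by
  have hlq := Real.log_pos hq
  have hlρ := Real.log_pos hρ
  have hx0 : 0 < x := by linarith
  rw [Real.rpow_add hx0, Real.rpow_one, mul_comm]
  refine mul_le_mul_of_nonneg_right ?_ hx0.le
  have h1 : x ^ (Real.log ρ / Real.log q) ≤ (q ^ K) ^ (Real.log ρ / Real.log q) :=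
    Real.rpow_le_rpow hx0.le h (by positivity)
  refine h1.trans (le_of_eq ?_)
  rw [← Real.rpow_natCast, ← Real.rpow_mul (by linarith), Real.rpow_def_of_pos (by linarith),
    ← Real.rpow_natCast, Real.rpow_def_of_pos (by linarith)]
  congr 1
  field_simp

/-- The infinite form. -/
theorem infinite_form (h : InG m d r) {c : ℤ} {A : Finset ℤ} (hA : 2 ≤ A.card)
    (hAr : ∀ a ∈ A, ∀ b ∈ A, (m - d) * c + (a - b) ∈ reps d r) {B : ℤ}
    (hB : ∀ a ∈ A, ∀ b ∈ A, a - b ≤ B) (hBm : B < m - d) (N : ℤ) :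
    ∃ n : ℤ, N ≤ n ∧ c < n ∧ ∃ k : ℕ, (∀ j < k, ¬ d ∣ (U m d r)^[j] n) ∧
      (1 - (B : ℝ) / (m - d)) * ((n : ℝ) - c) ^
        (1 + Real.log ((m : ℝ) / d) / Real.log ((d : ℝ) / A.card)) ≤
        ((U m d r)^[k] n : ℝ) - c := by
  obtain ⟨a0, ha0⟩ : A.Nonempty := card_pos.1 (by omega)
  have hB0 : 0 ≤ B := by
    have := hB a0 ha0 a0 ha0
    rwa [sub_self] at this
  have hm : d < m := by omega
  have hd : (0 : ℝ) < d := by
    have := h.two
    exact_mod_cast (by omega : 0 < d)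
  have hmd : (0 : ℝ) < (m : ℝ) - d := by
    have : (d : ℝ) < m := by exact_mod_cast hm
    linarith
  have hρ : 1 < (m : ℝ) / d := by
    rw [lt_div_iff₀ hd]
    linarith
  have hA0 : (0 : ℝ) < A.card := by
    have : 0 < A.card := by omega
    exact_mod_cast this
  have hq : 1 < (d : ℝ) / A.card := by
    rw [lt_div_iff₀ hA0, one_mul]
    exact_mod_cast card_lt h hAr
  have hκ : 0 < 1 - (B : ℝ) / (m - d) := by
    rw [sub_pos, div_lt_one hmd]
    exact_mod_cast hBm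
  obtain ⟨κ, hκd⟩ : ∃ κ, κ = 1 - (B : ℝ) / (m - d) := ⟨_, rfl⟩
  obtain ⟨ρ, hρd⟩ : ∃ ρ, ρ = (m : ℝ) / d := ⟨_, rfl⟩
  obtain ⟨q, hqd⟩ : ∃ q, q = (d : ℝ) / A.card := ⟨_, rfl⟩
  have hf := fun K : ℕ => real_form h hm hA hAr hB (Nat.succ_le_succ (Nat.zero_le K))
  rw [← hκd] at hκ hf ⊢
  rw [← hρd] at hρ hf ⊢
  rw [← hqd] at hq hf ⊢
  choose x hx1 hx2 hx3 hx4 using hf
  by_cases hN : ∃ K, N ≤ c + x K
  · obtain ⟨K, hK⟩ := hN
    refine ⟨c + x K, hK, by linarith [hx1 K], K + 1, hx3 K, ?_⟩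
    have h1 := hx4 K (K + 1) le_rfl
    have h2 : (1 : ℝ) ≤ x K := by exact_mod_cast hx1 K
    have h3 := rpow_bound hρ hq h2 (hx2 K)
    have h4 : (((c + x K : ℤ) : ℝ) - c) = x K := by push_cast; ring
    rw [h4]
    refine le_trans ?_ h1
    rw [mul_assoc]
    exact mul_le_mul_of_nonneg_left h3 hκ.le
  · push Not at hN
    obtain ⟨X, hX⟩ : ∃ X : ℤ, ∀ K0 : ℕ, ∃ K, K0 ≤ K ∧ x K = X := by
      by_contra hc
      push Not at hc
      choose K0 hK0 using hc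
      have h1 := hN ((Finset.Icc 1 (N - c)).sup K0)
      have h2 := hx1 ((Finset.Icc 1 (N - c)).sup K0)
      exact hK0 _ _ (Finset.le_sup (f := K0) (Finset.mem_Icc.2 ⟨h2, by linarith⟩)) rfl
    have hX1 : 1 ≤ X := by
      obtain ⟨K, -, hK⟩ := hX 0
      rw [← hK]
      exact hx1 K
    have hXr : (1 : ℝ) ≤ X := by exact_mod_cast hX1
    have hall : ∀ k, ¬ d ∣ (U m d r)^[k] (c + X) := by
      intro k
      obtain ⟨K, hK, hKX⟩ := hX k
      rw [← hKX]
      exact hx3 K k (by omega)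
    have hgr : ∀ k, κ * ρ ^ k * X ≤ (((U m d r)^[k] (c + X) : ℤ) : ℝ) - c := by
      intro k
      obtain ⟨K, hK, hKX⟩ := hX k
      rw [← hKX]
      exact hx4 K k (by omega)
    have hunb : ∀ M : ℝ, ∃ k, M ≤ κ * ρ ^ k * X := by
      intro M
      obtain ⟨k, hk⟩ := pow_unbounded_of_one_lt (M / (κ * X)) hρ
      refine ⟨k, ?_⟩
      rw [div_lt_iff₀ (by positivity)] at hk
      nlinarith
    obtain ⟨j, hj⟩ := hunb (max ((N : ℝ) - c) 1)
    obtain ⟨n, hn⟩ : ∃ n, n = (U m d r)^[j] (c + X) := ⟨_, rfl⟩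
    have hj2 := hj.trans (hgr j)
    rw [← hn] at hj2
    have h5 : (N : ℝ) - c ≤ (n : ℝ) - c := (le_max_left _ _).trans hj2
    have h6 : (1 : ℝ) ≤ (n : ℝ) - c := (le_max_right _ _).trans hj2
    obtain ⟨k', hk'⟩ := hunb (κ * ((n : ℝ) - c) ^ (1 + Real.log ρ / Real.log q))
    refine ⟨n, ?_, ?_, k', fun i _ => ?_, ?_⟩
    · have : (N : ℝ) ≤ n := by linarith
      exact_mod_cast this
    · have : (c : ℝ) < n := by linarith
      exact_mod_cast this
    · rw [hn, ← Function.iterate_add_apply]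
      exact hall _
    · have h7 := hgr (k' + j)
      rw [Function.iterate_add_apply, ← hn] at h7
      refine hk'.trans (le_trans ?_ h7)
      have h8 : ρ ^ k' ≤ ρ ^ (k' + j) := pow_le_pow_right₀ hρ.le (by omega)
      have h9 : κ * ρ ^ k' ≤ κ * ρ ^ (k' + j) := mul_le_mul_of_nonneg_left h8 hκ.le
      exact mul_le_mul_of_nonneg_right h9 (by linarith)

end Pool.Agent.H9.Rec
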