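import Pool.Agent.H9.Rec.Step

/-!
# The pigeonhole step
-/

namespace Pool.Agent.H9.Rec

open Finset

variable {m d : ℤ} {r : ℤ → ℤ}

/-- Letters are determined by their class. -/
theorem letter_inj (h : InG m d r) {c δ δ' : ℤ} (h1 : (m - d) * c + δ ∈ reps d r)
    (h2 : (m - d) * c + δ' ∈ reps d r) (h3 : d ∣ δ - δ') : δ = δ' := by
  have h4 := (mem_reps h h1).2
  have h5 := (mem_reps h h2).2
  have h6 : ((m - d) * c + δ) % d = ((m - d) * c + δ') % d := by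
    apply Int.emod_emod_of_dvd _ (dvd_refl d) |>.symm.trans ?_ |>.trans (Int.emod_emod_of_dvd _ (dvd_refl d))
    rw [Int.emod_emod_of_dvd _ (dvd_refl d), Int.emod_emod_of_dvd _ (dvd_refl d)]
    apply Int.ModEq.symm
    rw [Int.modEq_iff_dvd]
    have : (m - d) * c + δ - ((m - d) * c + δ') = δ - δ' := by ring
    rw [this]
    exact h3
  rw [h6] at h4
  linarith

/-- The path of `0` is `0`. -/
theorem zero_path (h : InG m d r) {c : ℤ} (hc : (m - d) * c ∈ reps d r) {K : ℕ} {δ y : ℕ → ℤ}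
    (hδ : ∀ k < K, (m - d) * c + δ k ∈ reps d r)
    (hy : ∀ k < K, d * y (k + 1) = m * y k - δ k) (h0 : y 0 = 0) :
    (∀ k ≤ K, y k = 0) ∧ ∀ k < K, δ k = 0 := by
  have hd : d ≠ 0 := by have := h.two; omega
  have h1 : ∀ k ≤ K, y k = 0 := by
    intro k
    induction k with
    | zero => intro _; exact h0
    | succ k ih =>
      intro hk
      have h2 := ih (by omega)
      have h3 := hy k (by omega)
      rw [h2] at h3
      have h4 : δ k = 0 := letter_inj h (hδ k (by omega)) (by rw [add_zero]; exact hc)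
        ⟨-y (k + 1), by linarith⟩
      rw [h4] at h3
      have h5 : d * y (k + 1) = 0 := by linarith
      exact (mul_eq_zero.1 h5).resolve_left hd
  refine ⟨h1, fun k hk => ?_⟩
  have h3 := hy k hk
  rw [h1 k hk.le, h1 (k + 1) hk] at h3
  linarith

/-- Pigeonhole: a small solution with differences as letters. -/
theorem pigeon (h : InG m d r) {c : ℤ} {A : Finset ℤ} (hA : 2 ≤ A.card)
    (hAr : ∀ a ∈ A, ∀ b ∈ A, (m - d) * c + (a - b) ∈ reps d r) {K : ℕ} (hK : 1 ≤ K) :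
    ∃ (x : ℤ) (δ : ℕ → ℤ), 1 ≤ x ∧ (A.card : ℤ) ^ K * x ≤ d ^ K ∧
      (∀ k < K, ∃ a ∈ A, ∃ b ∈ A, δ k = a - b) ∧ d ^ K ∣ m ^ K * x - S m d δ K := by
  classical
  have hd2 := h.two
  obtain ⟨D, hD⟩ : ∃ D : ℕ, (D : ℤ) = d := ⟨d.toNat, Int.toNat_of_nonneg (by omega)⟩
  obtain ⟨a0, ha0⟩ : A.Nonempty := card_pos.1 (by omega)
  have hfix : (m - d) * c ∈ reps d r := by
    have := hAr a0 ha0 a0 ha0
    rwa [sub_self, add_zero] at this
  have hM : 0 < D ^ K := by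
    apply pow_pos
    omega
  have : NeZero (D ^ K) := ⟨hM.ne'⟩
  have haK : 2 ≤ A.card ^ K := hA.trans (Nat.le_self_pow (by omega) _)
  obtain ⟨w, hw⟩ : ∃ w, w = D ^ K / A.card ^ K := ⟨_, rfl⟩
  have hwM : w < D ^ K := by
    rw [hw]
    exact Nat.div_lt_self hM haK
  have hcard : Fintype.card (ZMod (D ^ K)) < Fintype.card ((Fin K → A) × Fin (w + 1)) := by
    rw [ZMod.card, Fintype.card_prod, Fintype.card_fun, Fintype.card_fin, Fintype.card_coe,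
      Fintype.card_fin, hw]
    exact Nat.lt_mul_div_succ _ (by omega)
  let ext : (Fin K → A) → ℕ → ℤ := fun ε k => if hk : k < K then (ε ⟨k, hk⟩ : ℤ) else 0
  let f : (Fin K → A) × Fin (w + 1) → ZMod (D ^ K) := fun q =>
    ((S m d (ext q.1) K - m ^ K * (q.2 : ℕ) : ℤ) : ZMod (D ^ K))
  obtain ⟨⟨ε, j⟩, ⟨ε', j'⟩, hne, heq⟩ := Fintype.exists_ne_map_eq_of_card_lt f hcard
  have hdiv : d ^ K ∣ m ^ K * (((j : ℕ) : ℤ) - ((j' : ℕ) : ℤ)) -
      S m d (fun k => ext ε k - ext ε' k) K := by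
    have h1 : ((S m d (ext ε) K - m ^ K * (j : ℕ) : ℤ) : ZMod (D ^ K)) =
      ((S m d (ext ε') K - m ^ K * (j' : ℕ) : ℤ) : ZMod (D ^ K)) := heq
    rw [ZMod.intCast_eq_intCast_iff_dvd_sub] at h1
    push_cast at h1
    rw [hD] at h1
    rw [S_sub]
    have h2 : m ^ K * (((j : ℕ) : ℤ) - ((j' : ℕ) : ℤ)) - (S m d (ext ε) K - S m d (ext ε') K) =
        S m d (ext ε') K - m ^ K * ((j' : ℕ) : ℤ) - (S m d (ext ε) K - m ^ K * ((j : ℕ) : ℤ)) := by
      ring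
    rw [h2]
    exact h1
  have hlet : ∀ k < K, ∃ a ∈ A, ∃ b ∈ A, ext ε k - ext ε' k = a - b := by
    intro k hk
    refine ⟨_, (ε ⟨k, hk⟩).2, _, (ε' ⟨k, hk⟩).2, ?_⟩
    simp only [ext, dif_pos hk]
  have hlet' : ∀ k < K, ∃ a ∈ A, ∃ b ∈ A, ext ε' k - ext ε k = a - b := by
    intro k hk
    refine ⟨_, (ε' ⟨k, hk⟩).2, _, (ε ⟨k, hk⟩).2, ?_⟩
    simp only [ext, dif_pos hk]
  have hdiv' : d ^ K ∣ m ^ K * (((j' : ℕ) : ℤ) - ((j : ℕ) : ℤ)) -
      S m d (fun k => ext ε' k - ext ε k) K := by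
    have h1 := hdiv
    rw [S_sub] at h1 ⊢
    have h2 : m ^ K * (((j' : ℕ) : ℤ) - ((j : ℕ) : ℤ)) - (S m d (ext ε') K - S m d (ext ε) K) =
        -(m ^ K * (((j : ℕ) : ℤ) - ((j' : ℕ) : ℤ)) - (S m d (ext ε) K - S m d (ext ε') K)) := by
      ring
    rw [h2]
    exact (dvd_neg).2 h1
  have hjj : (j : ℕ) ≠ (j' : ℕ) := by
    intro he
    have h1 := hdiv
    rw [he, sub_self] at h1
    obtain ⟨y, hy0, hy⟩ := exists_path h.cop (by omega) _ _ _ h1
    have h2 := (zero_path h hfix (fun k hk => by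
      obtain ⟨a, ha, b, hb, hab⟩ := hlet k hk
      rw [hab]
      exact hAr a ha b hb) hy hy0).2
    apply hne
    have h3 : ε = ε' := by
      funext k
      have h4 := h2 k k.2
      simp only [ext, dif_pos k.2] at h4
      exact Subtype.ext (by linarith)
    rw [h3, Fin.ext he]
  have hbound : ∀ i : Fin (w + 1), (A.card : ℤ) ^ K * ((i : ℕ) : ℤ) ≤ d ^ K := by
    intro i
    have h1 : (i : ℕ) ≤ w := by omega
    have h2 : A.card ^ K * (i : ℕ) ≤ D ^ K := by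
      calc A.card ^ K * (i : ℕ) ≤ A.card ^ K * w := Nat.mul_le_mul_left _ h1
        _ ≤ D ^ K := by
          rw [hw]
          exact Nat.mul_div_le _ _
    rw [← hD]
    exact_mod_cast h2
  have hp : (0 : ℤ) ≤ (A.card : ℤ) ^ K := by positivity
  rcases Nat.lt_or_gt_of_ne hjj with hlt | hlt
  · refine ⟨((j' : ℕ) : ℤ) - ((j : ℕ) : ℤ), _, by omega, ?_, hlet', hdiv'⟩
    refine le_trans ?_ (hbound j')
    exact mul_le_mul_of_nonneg_left (by omega) hp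
  · refine ⟨((j : ℕ) : ℤ) - ((j' : ℕ) : ℤ), _, by omega, ?_, hlet, hdiv⟩
    refine le_trans ?_ (hbound j)
    exact mul_le_mul_of_nonneg_left (by omega) hp

/-- The finite form. -/
theorem finite_form (h : InG m d r) (hm : d < m) {c : ℤ} {A : Finset ℤ} (hA : 2 ≤ A.card)
    (hAr : ∀ a ∈ A, ∀ b ∈ A, (m - d) * c + (a - b) ∈ reps d r) {B : ℤ}
    (hB : ∀ a ∈ A, ∀ b ∈ A, a - b ≤ B) {K : ℕ} (hK : 1 ≤ K) :
    ∃ x : ℤ, 1 ≤ x ∧ (A.card : ℤ) ^ K * x ≤ d ^ K ∧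
      (∀ k < K, ¬ d ∣ (U m d r)^[k] (c + x)) ∧
      ∀ k ≤ K, m ^ k * ((m - d) * x - B) ≤ d ^ k * ((m - d) * ((U m d r)^[k] (c + x) - c) - B) := by
  obtain ⟨x, δ, hx1, hx2, hδ, hdiv⟩ := pigeon h hA hAr hK
  have hd := h.two
  obtain ⟨y, hy0, hy⟩ := exists_path h.cop (by omega) _ _ _ hdiv
  have hδr : ∀ k < K, (m - d) * c + δ k ∈ reps d r := by
    intro k hk
    obtain ⟨a, ha, b, hb, hab⟩ := hδ k hk
    rw [hab]
    exact hAr a ha b hb
  obtain ⟨h1, h2⟩ := orbit h hδr hy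
  have h3 := growth (by omega) hm (fun k hk => by
    obtain ⟨a, ha, b, hb, hab⟩ := hδ k hk
    rw [hab]
    exact hB a ha b hb) hy
  rw [hy0] at h1 h2 h3
  refine ⟨x, hx1, hx2, h2, fun k hk => ?_⟩
  rw [h1 k hk, add_sub_cancel_left]
  exact h3 k hk

end Pool.Agent.H9.Rec
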