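import Pool.Agent.H9.Rec.Defs

/-!
# One step of the map next to a fixed point, and the linear form
-/

namespace Pool.Agent.H9.Rec

variable {m d : ℤ} {r : ℤ → ℤ}

theorem mem_reps (h : InG m d r) {y : ℤ} (hy : y ∈ reps d r) : ¬ d ∣ y ∧ r (y % d) = y := by
  obtain ⟨i, ⟨hi1, hi2⟩, rfl⟩ := hy
  have h1 := h.rep i hi1 hi2
  have h2 : i % d = i := Int.emod_eq_of_lt (by linarith) (by linarith)
  have h3 : r i % d = i := by rw [h1, h2]
  refine ⟨fun hd => ?_, by rw [h3]⟩
  have h4 := Int.emod_eq_zero_of_dvd hd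
  omega

theorem not_dvd_mul (h : InG m d r) {n : ℤ} (hn : ¬ d ∣ n) : ¬ d ∣ m * n := fun h1 =>
  hn (h.cop.symm.dvd_of_dvd_mul_left h1)

/-- The letter of the fixed point. -/
theorem fix_letter (h : InG m d r) {c : ℤ} (hc : ¬ d ∣ c) (hU : U m d r c = c) :
    (m - d) * c ∈ reps d r := by
  have hd : (0 : ℤ) < d := by linarith [h.two]
  unfold U at hU
  rw [if_neg hc] at hU
  have h1 : 0 ≤ m * c % d := Int.emod_nonneg _ hd.ne'
  have h2 : m * c % d < d := Int.emod_lt_of_pos _ hd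
  have h3 : m * c % d ≠ 0 := fun h4 => not_dvd_mul h hc (Int.dvd_of_emod_eq_zero h4)
  have h4 : 1 ≤ m * c % d := by omega
  have h5 := h.rep _ h4 (by omega)
  have h6 : d ∣ m * c - r (m * c % d) := by
    have h7 : r (m * c % d) ≡ m * c [ZMOD d] := h5.trans (Int.mod_modEq _ _)
    exact h7.dvd
  have h7 := Int.ediv_mul_cancel h6
  rw [hU] at h7
  exact ⟨m * c % d, ⟨h4, by omega⟩, by linarith⟩

/-- One step: `U (c + x) = c + x'` with `d x' = m x - δ`. -/
theorem step (h : InG m d r) {c x x' δ : ℤ} (hδ : (m - d) * c + δ ∈ reps d r)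
    (hx : d * x' = m * x - δ) : ¬ d ∣ c + x ∧ U m d r (c + x) = c + x' := by
  have hd : (0 : ℤ) < d := by linarith [h.two]
  obtain ⟨h1, h2⟩ := mem_reps h hδ
  have h3 : m * (c + x) = (m - d) * c + δ + d * (c + x') := by linarith
  have h4 : m * (c + x) % d = ((m - d) * c + δ) % d := by
    rw [h3, Int.add_mul_emod_self_left]
  have h5 : ¬ d ∣ c + x := by
    intro h6
    have h7 : d ∣ m * (c + x) := h6.mul_left m
    rw [h3] at h7
    exact h1 ((dvd_add_left (dvd_mul_right _ _)).1 h7)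
  refine ⟨h5, ?_⟩
  unfold U
  rw [if_neg h5, h4, h2, h3, add_sub_cancel_left, Int.mul_ediv_cancel_left _ hd.ne']

/-- The linear form. -/
def S (m d : ℤ) (δ : ℕ → ℤ) : ℕ → ℤ
  | 0 => 0
  | k + 1 => m * S m d δ k + d ^ k * δ k

theorem S_sub (δ δ' : ℕ → ℤ) (k : ℕ) :
    S m d (fun j => δ j - δ' j) k = S m d δ k - S m d δ' k := by
  induction k with
  | zero => simp [S]
  | succ k ih => simp only [S, ih]; ring

/-- The path from a solution of the congruence. -/
theorem exists_path (hco : IsCoprime m d) (hd : d ≠ 0) (δ : ℕ → ℤ) (x : ℤ) (K : ℕ)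
    (h : d ^ K ∣ m ^ K * x - S m d δ K) :
    ∃ y : ℕ → ℤ, y 0 = x ∧ ∀ k < K, d * y (k + 1) = m * y k - δ k := by
  have h1 : ∀ j k, k + j = K → d ^ k ∣ m ^ k * x - S m d δ k := by
    intro j
    induction j with
    | zero =>
      intro k hk
      rw [add_zero] at hk
      rw [hk]
      exact h
    | succ j ih =>
      intro k hk
      have h2 := ih (k + 1) (by omega)
      have h3 : d ^ k ∣ m * (m ^ k * x - S m d δ k) := by
        have h4 : m ^ (k + 1) * x - S m d δ (k + 1) =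
            m * (m ^ k * x - S m d δ k) - d ^ k * δ k := by
          simp only [S]
          ring
        rw [h4] at h2
        have h5 := (pow_dvd_pow d (Nat.le_succ k)).trans h2
        exact (dvd_sub_left (dvd_mul_right _ _)).1 h5
      exact (IsCoprime.pow_left hco.symm).dvd_of_dvd_mul_left h3
  refine ⟨fun k => (m ^ k * x - S m d δ k) / d ^ k, by simp [S], fun k hk => ?_⟩
  obtain ⟨u, hu⟩ := h1 (K - k) k (by omega)
  obtain ⟨v, hv⟩ := h1 (K - (k + 1)) (k + 1) (by omega)
  have hp : d ^ k ≠ 0 := pow_ne_zero _ hd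
  have hp' : d ^ (k + 1) ≠ 0 := pow_ne_zero _ hd
  simp only
  rw [hu, hv, Int.mul_ediv_cancel_left _ hp, Int.mul_ediv_cancel_left _ hp']
  have h2 : m ^ (k + 1) * x - S m d δ (k + 1) =
      m * (m ^ k * x - S m d δ k) - d ^ k * δ k := by
    simp only [S]
    ring
  rw [hu, hv] at h2
  apply mul_left_cancel₀ hp
  rw [← mul_assoc, ← pow_succ, h2]
  ring

/-- The orbit next to a fixed point. -/
theorem orbit (h : InG m d r) {c : ℤ} {K : ℕ} {δ y : ℕ → ℤ}
    (hδ : ∀ k < K, (m - d) * c + δ k ∈ reps d r)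
    (hy : ∀ k < K, d * y (k + 1) = m * y k - δ k) :
    (∀ k ≤ K, (U m d r)^[k] (c + y 0) = c + y k) ∧
      ∀ k < K, ¬ d ∣ (U m d r)^[k] (c + y 0) := by
  have h1 : ∀ k ≤ K, (U m d r)^[k] (c + y 0) = c + y k := by
    intro k
    induction k with
    | zero => intro _; rfl
    | succ k ih =>
      intro hk
      rw [Function.iterate_succ_apply', ih (by omega)]
      exact (step h (hδ k (by omega)) (hy k (by omega))).2
  exact ⟨h1, fun k hk => by
    rw [h1 k hk.le]
    exact (step h (hδ k hk) (hy k hk)).1⟩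

/-- Growth of the path. -/
theorem growth (hd : 0 < d) (hm : d < m) {B : ℤ} {K : ℕ} {δ y : ℕ → ℤ}
    (hδ : ∀ k < K, δ k ≤ B) (hy : ∀ k < K, d * y (k + 1) = m * y k - δ k) :
    ∀ k ≤ K, m ^ k * ((m - d) * y 0 - B) ≤ d ^ k * ((m - d) * y k - B) := by
  intro k
  induction k with
  | zero => intro _; simp
  | succ k ih =>
    intro hk
    have h1 := ih (by omega)
    have h2 := hy k (by omega)
    have h3 := hδ k (by omega)
    have hm0 : 0 < m := by linarith
    have h4 : m * (m ^ k * ((m - d) * y 0 - B)) ≤ m * (d ^ k * ((m - d) * y k - B)) :=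
      mul_le_mul_of_nonneg_left h1 hm0.le
    have h5 : m * ((m - d) * y k - B) ≤ d * ((m - d) * y (k + 1) - B) := by
      have h6 : d * ((m - d) * y (k + 1) - B) = (m - d) * (d * y (k + 1)) - d * B := by ring
      rw [h6, h2]
      have h7 : 0 ≤ (m - d) * (B - δ k) := mul_nonneg (by linarith) (by linarith)
      nlinarith
    have h8 : 0 < d ^ k := pow_pos hd k
    calc m ^ (k + 1) * ((m - d) * y 0 - B) = m * (m ^ k * ((m - d) * y 0 - B)) := by ring
      _ ≤ m * (d ^ k * ((m - d) * y k - B)) := h4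
      _ = d ^ k * (m * ((m - d) * y k - B)) := by ring
      _ ≤ d ^ k * (d * ((m - d) * y (k + 1) - B)) := mul_le_mul_of_nonneg_left h5 h8.le
      _ = d ^ (k + 1) * ((m - d) * y (k + 1) - B) := by ring

end Pool.Agent.H9.Rec
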